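import Mathlib
import Pool.Agent.MP_05a99f_pr.Main

set_option autoImplicit false

/-!
The longest weakly increasing subsequence of a centred random walk with finite variance has length
at most `√n (log n) ^ a` with probability tending to one, for every `a > 3`.
-/

namespace Pool.Agent.Results.MP_05a99f_pr.LisBound

open MeasureTheory ProbabilityTheory Filter Finset
open scoped Topology ENNReal

/-- The partial sums `S_k = X_1 + ⋯ + X_k` of a sequence of random variables (the summands are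
indexed from `0`, so `walk X k` is the sum of the first `k` of them and `walk X 0 = 0`). -/
noncomputable def walk {Ω : Type*} (X : ℕ → Ω → ℝ) (ω : Ω) (k : ℕ) : ℝ :=
  ∑ i ∈ Finset.range k, X i ω

open Classical in
/-- The length of the longest weakly increasing subsequence of `s 0, …, s (n - 1)`: the largest
cardinality of a set `T` of indices in `{0, …, n - 1}` on which `s` is weakly increasing. -/
noncomputable def LIS (s : ℕ → ℝ) (n : ℕ) : ℕ :=
  ((Finset.range n).powerset.filter fun T : Finset ℕ => MonotoneOn s (T : Set ℕ)).sup Finset.card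

theorem exists_LIS (s : ℕ → ℝ) (n : ℕ) :
    ∃ T ⊆ Finset.range n, MonotoneOn s (T : Set ℕ) ∧ T.card = LIS s n := by
  classical
  have hne : ((Finset.range n).powerset.filter
      fun T : Finset ℕ => MonotoneOn s (T : Set ℕ)).Nonempty := by
    refine ⟨∅, ?_⟩
    rw [mem_filter, mem_powerset]
    refine ⟨empty_subset _, ?_⟩
    intro a ha
    simp at ha
  obtain ⟨T, hT, hTc⟩ := Finset.exists_mem_eq_sup _ hne Finset.card
  rw [mem_filter, mem_powerset] at hT
  exact ⟨T, hT.1, hT.2, hTc.symm⟩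

/-- The elementary comparison of the bound with `√n (log n) ^ a`. -/
theorem eventually_bound (a σ d : ℝ) (ha : 3 < a) (hσ : 0 ≤ σ) (hd : 0 < d) :
    ∀ᶠ n : ℕ in atTop, ∀ m : ℝ,
      m * d ≤ 2 * (8 * (Real.sqrt n * Real.log n ^ ((a - 3) / 2)) +
        n * (σ / (2 * (Real.sqrt n * Real.log n ^ ((a - 3) / 2)))) +
        ((Nat.log 2 n + 1 : ℕ) : ℝ) * (4 * (Real.sqrt n * Real.log n ^ ((a - 3) / 2)) +
          64 * ((Nat.log 2 n + 1 : ℕ) : ℝ) * (Real.sqrt n * Real.log n ^ ((a - 3) / 2)) *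
            Real.log (n + 1))) →
      m ≤ Real.sqrt n * Real.log n ^ a := by
  set ε := (a - 3) / 2 with hε
  have hε0 : 0 < ε := by rw [hε]; linarith
  have ht : Tendsto (fun n : ℕ => Real.log n ^ ε) atTop atTop :=
    (tendsto_rpow_atTop hε0).comp (Real.tendsto_log_atTop.comp tendsto_natCast_atTop_atTop)
  have h1 := ht.eventually_ge_atTop (2 * (1172 + σ) / d)
  have h2 : ∀ᶠ n : ℕ in atTop, 3 ≤ n := eventually_ge_atTop 3
  filter_upwards [h1, h2] with n hn1 hn3 m hm
  set ℓ := Real.log n with hℓ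
  set E := ℓ ^ ε with hE
  have hn3' : (3 : ℝ) ≤ n := by exact_mod_cast hn3
  have hℓ1 : 1 ≤ ℓ := by
    rw [hℓ, Real.le_log_iff_exp_le (by linarith)]
    linarith [Real.exp_one_lt_d9]
  have hE1 : 1 ≤ E := Real.one_le_rpow hℓ1 hε0.le
  set q := Real.sqrt n with hq
  have hq0 : 0 < q := Real.sqrt_pos.2 (by linarith)
  have hqq : q * q = n := Real.mul_self_sqrt (by linarith)
  set R := q * E with hR
  have hR0 : 0 < R := by positivity
  have hqR : q ≤ R := by rw [hR]; nlinarith
  set J : ℝ := ((Nat.log 2 n + 1 : ℕ) : ℝ) with hJ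
  have hJ0 : 0 ≤ J := Nat.cast_nonneg _
  have hJℓ : J ≤ 3 * ℓ := by
    have h3 : (Nat.log 2 n : ℝ) ≤ Real.logb 2 n := by
      have := Real.natLog_le_logb n 2
      exact_mod_cast this
    have h4 : Real.logb 2 n ≤ 2 * ℓ := by
      unfold Real.logb
      rw [div_le_iff₀ (Real.log_pos (by norm_num))]
      have := Real.log_two_gt_d9
      nlinarith
    rw [hJ]
    push_cast
    linarith
  set L := Real.log ((n : ℝ) + 1) with hL
  have hL2 : L ≤ 2 * ℓ := by
    have : Real.log ((n : ℝ) + 1) ≤ Real.log ((n : ℝ) ^ 2) := by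
      apply Real.log_le_log (by linarith)
      nlinarith
    rw [Real.log_pow] at this
    push_cast at this
    exact this
  have hL0 : 0 ≤ L := Real.log_nonneg (by linarith)
  have hℓ3 : 1 ≤ ℓ ^ 3 := one_le_pow₀ hℓ1
  -- the four terms
  have t1 : (n : ℝ) * (σ / (2 * R)) ≤ R * ℓ ^ 3 * σ := by
    have e1 : (n : ℝ) * (σ / (2 * R)) = q * (σ * (q / (2 * R))) := by
      rw [← hqq]; ring
    have e2 : q / (2 * R) ≤ 1 := by
      rw [div_le_one (by positivity)]
      linarith
    rw [e1]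
    calc q * (σ * (q / (2 * R))) ≤ q * (σ * 1) := by gcongr
      _ = q * σ := by ring
      _ ≤ R * ℓ ^ 3 * σ := by
          apply mul_le_mul_of_nonneg_right _ hσ
          nlinarith
  have t2 : J * (4 * R) ≤ 12 * (R * ℓ ^ 3) := by
    have hℓ13 : ℓ ≤ ℓ ^ 3 := by nlinarith [sq_nonneg (ℓ - 1)]
    calc J * (4 * R) ≤ 3 * ℓ * (4 * R) := by gcongr
      _ = 12 * (R * ℓ) := by ring
      _ ≤ 12 * (R * ℓ ^ 3) := by gcongr
  have t3 : J * (64 * J * R * L) ≤ 1152 * (R * ℓ ^ 3) := by
    calc J * (64 * J * R * L) ≤ (3 * ℓ) * (64 * (3 * ℓ) * R * (2 * ℓ)) := by gcongr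
      _ = 1152 * (R * ℓ ^ 3) := by ring
  have t4 : 8 * R ≤ 8 * (R * ℓ ^ 3) := by nlinarith
  have hm' : m * d ≤ 2 * ((R * ℓ ^ 3) * (1172 + σ)) := by
    rw [mul_add] at hm
    linarith
  have hk : 2 * (1172 + σ) ≤ E * d := by
    rwa [div_le_iff₀ hd] at hn1
  have hfin : m * d ≤ (R * ℓ ^ 3 * E) * d := by
    calc m * d ≤ 2 * ((R * ℓ ^ 3) * (1172 + σ)) := hm'
      _ = (R * ℓ ^ 3) * (2 * (1172 + σ)) := by ring
      _ ≤ (R * ℓ ^ 3) * (E * d) := by gcongr
      _ = _ := by ring
  have hfin' : m ≤ R * ℓ ^ 3 * E := le_of_mul_le_mul_right hfin hd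
  refine hfin'.trans (le_of_eq ?_)
  rw [hR, hE]
  have hℓ0 : 0 < ℓ := by linarith
  have e3 : ℓ ^ a = ℓ ^ 3 * (ℓ ^ ε * ℓ ^ ε) := by
    rw [← Real.rpow_natCast, ← Real.rpow_add hℓ0, ← Real.rpow_add hℓ0]
    congr 1
    rw [hε]
    push_cast
    ring
  rw [e3]
  ring

/-- **Main theorem.** Let `X 0, X 1, …` be i.i.d. real random variables with mean zero and finite
positive variance. For every real `a > 3`, the probability that the longest weakly increasing
subsequence of `S_0, …, S_{n-1}` has length at most `√n (log n) ^ a` tends to `1`. -/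
theorem result {Ω : Type*} [MeasurableSpace Ω] (P : Measure Ω) [IsProbabilityMeasure P]
    (X : ℕ → Ω → ℝ) (hX : ∀ i, Measurable (X i)) (hind : iIndepFun X P)
    (hid : ∀ i, IdentDistrib (X i) (X 0) P P) (hL2 : MemLp (X 0) 2 P)
    (hmean : ∫ ω, X 0 ω ∂P = 0) (hvar : 0 < Var[X 0; P]) (a : ℝ) (ha : 3 < a) :
    Tendsto (fun n : ℕ => P {ω | (LIS (walk X ω) n : ℝ) ≤ Real.sqrt n * Real.log n ^ a})
      atTop (𝓝 1) := by
  classical
  -- the step distribution
  let μ : Measure ℝ := P.map (X 0)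
  have hμp : IsProbabilityMeasure μ := Measure.isProbabilityMeasure_map (hX 0).aemeasurable
  have hμ : ∀ t, P.map (X t) = μ := fun t => (hid t).map_eq
  have hid1 : Integrable (X 0) P := hL2.integrable (by norm_num)
  have hid2 : Integrable (fun ω => (X 0 ω) ^ 2) P := hL2.integrable_sq
  have h1 : Integrable (fun z : ℝ => z) μ :=
    (integrable_map_measure (f := X 0) (g := fun z : ℝ => z)
      measurable_id.aestronglyMeasurable (hX 0).aemeasurable).2 hid1
  have h2 : Integrable (fun z : ℝ => z ^ 2) μ :=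
    (integrable_map_measure (f := X 0) (g := fun z : ℝ => z ^ 2)
      (measurable_id.pow_const 2).aestronglyMeasurable (hX 0).aemeasurable).2 hid2
  have h0 : ∫ z, z ∂μ = 0 := by
    rw [← hmean]
    exact integral_map (hX 0).aemeasurable measurable_id.aestronglyMeasurable
  have hσ : 0 ≤ ∫ z, z ^ 2 ∂μ := integral_nonneg fun z => sq_nonneg z
  have hD : 0 < LISWalk.D μ 0 := by
    rw [LISWalk.D_zero]
    have hnn : 0 ≤ ∫ z, |z| ∂μ := integral_nonneg fun z => abs_nonneg z
    refine lt_of_le_of_ne hnn fun h => ?_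
    have h3 := (integral_eq_zero_iff_of_nonneg (fun z : ℝ => abs_nonneg z) h1.abs).1 h.symm
    have h4 : (fun ω => |X 0 ω|) =ᵐ[P] 0 := by
      have := ae_of_ae_map (hX 0).aemeasurable h3
      exact this
    have h5 : X 0 =ᵐ[P] 0 := by
      filter_upwards [h4] with ω hω
      simpa using hω
    have h6 : Var[X 0; P] = 0 := by
      rw [variance_congr h5]
      exact variance_zero P
    exact hvar.ne' h6
  set σ := ∫ z, z ^ 2 ∂μ with hσdef
  set ε := (a - 3) / 2 with hε
  have hε0 : 0 < ε := by rw [hε]; linarith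
  -- tail bound
  have htail : ∀ᶠ n : ℕ in atTop,
      P {ω | (LIS (walk X ω) n : ℝ) ≤ Real.sqrt n * Real.log n ^ a}ᶜ ≤
        ENNReal.ofReal (σ * (Real.log n ^ (2 * ε))⁻¹) + ENNReal.ofReal (((n : ℝ) + 1)⁻¹) := by
    filter_upwards [eventually_bound a σ (LISWalk.D μ 0) ha hσ hD, eventually_ge_atTop 3]
      with n hn hn3
    have hn3' : (3 : ℝ) ≤ n := by exact_mod_cast hn3
    have hℓ1 : 1 ≤ Real.log n := by
      rw [Real.le_log_iff_exp_le (by linarith)]
      linarith [Real.exp_one_lt_d9]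
    have hR : 0 < Real.sqrt n * Real.log n ^ ε := by
      apply mul_pos (Real.sqrt_pos.2 (by linarith))
      exact Real.rpow_pos_of_pos (by linarith) _
    have hJ : n ≤ 2 ^ (Nat.log 2 n + 1) := (Nat.lt_pow_succ_log_self (by norm_num) n).le
    have hb := LISWalk.tail_bound hX hind μ hμ h1 h2 h0 n (Nat.log 2 n + 1) (Nat.succ_pos _) hJ
      (Real.sqrt n * Real.log n ^ ε) hR
    refine le_trans (measure_mono ?_) (hb.trans (add_le_add (le_of_eq ?_) ?_))
    · intro ω hω hcon
      apply hω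
      obtain ⟨T, hT, hTm, hTc⟩ := exists_LIS (walk X ω) n
      have := hcon T hT hTm
      rw [hTc] at this
      exact hn _ this
    · congr 1
      rw [mul_pow, Real.sq_sqrt (by linarith), ← Real.rpow_natCast, ← Real.rpow_mul (by linarith)]
      have hn0 : (n : ℝ) ≠ 0 := by linarith
      rw [show (ε * ((2 : ℕ) : ℝ)) = 2 * ε by push_cast; ring, ← hσdef]
      field_simp
    · have hn1 : (0 : ℝ) < (n : ℝ) + 1 := by linarith
      have e : Real.exp (-(2 * Real.log ((n : ℝ) + 1))) = ((n : ℝ) + 1)⁻¹ * ((n : ℝ) + 1)⁻¹ := by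
        rw [two_mul, neg_add, Real.exp_add, Real.exp_neg, Real.exp_log hn1]
      rw [e, ENNReal.ofReal_mul (by positivity), ← mul_assoc]
      have hJn : ((Nat.log 2 n + 1 : ℕ) : ℝ≥0∞) * ENNReal.ofReal (((n : ℝ) + 1)⁻¹) ≤ 1 := by
        have : ((Nat.log 2 n + 1 : ℕ) : ℝ≥0∞) = ENNReal.ofReal ((Nat.log 2 n + 1 : ℕ) : ℝ) := by
          rw [ENNReal.ofReal_natCast]
        rw [this, ← ENNReal.ofReal_mul (Nat.cast_nonneg _), ← ENNReal.ofReal_one]
        apply ENNReal.ofReal_le_ofReal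
        rw [mul_inv_le_iff₀ hn1, one_mul]
        have := Nat.log_le_self 2 n
        exact_mod_cast Nat.succ_le_succ this
      calc _ ≤ 1 * ENNReal.ofReal (((n : ℝ) + 1)⁻¹) := mul_le_mul_left hJn _
        _ = _ := one_mul _
  -- the error tends to zero
  have herr : Tendsto (fun n : ℕ => ENNReal.ofReal (σ * (Real.log n ^ (2 * ε))⁻¹) +
      ENNReal.ofReal (((n : ℝ) + 1)⁻¹)) atTop (𝓝 0) := by
    have hlog : Tendsto (fun n : ℕ => Real.log n ^ (2 * ε)) atTop atTop :=
      (tendsto_rpow_atTop (by linarith)).comp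
        (Real.tendsto_log_atTop.comp tendsto_natCast_atTop_atTop)
    have e1 : Tendsto (fun n : ℕ => σ * (Real.log n ^ (2 * ε))⁻¹) atTop (𝓝 0) := by
      have := (tendsto_inv_atTop_zero.comp hlog).const_mul σ
      rw [mul_zero] at this
      exact this
    have e2 : Tendsto (fun n : ℕ => ((n : ℝ) + 1)⁻¹) atTop (𝓝 0) :=
      tendsto_inv_atTop_zero.comp (tendsto_atTop_add_const_right _ _ tendsto_natCast_atTop_atTop)
    have := (ENNReal.tendsto_ofReal e1).add (ENNReal.tendsto_ofReal e2)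
    simpa using this
  have hlow : Tendsto (fun n : ℕ => 1 - (ENNReal.ofReal (σ * (Real.log n ^ (2 * ε))⁻¹) +
      ENNReal.ofReal (((n : ℝ) + 1)⁻¹))) atTop (𝓝 1) := by
    have := ENNReal.Tendsto.sub (tendsto_const_nhds (x := (1 : ℝ≥0∞))) herr
      (Or.inl ENNReal.one_ne_top)
    simpa using this
  refine tendsto_of_tendsto_of_tendsto_of_le_of_le' hlow tendsto_const_nhds ?_ ?_
  · filter_upwards [htail] with n hn
    rw [tsub_le_iff_right]
    calc (1 : ℝ≥0∞) = P Set.univ := measure_univ.symm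
      _ = P ({ω | (LIS (walk X ω) n : ℝ) ≤ Real.sqrt n * Real.log n ^ a} ∪
          {ω | (LIS (walk X ω) n : ℝ) ≤ Real.sqrt n * Real.log n ^ a}ᶜ) := by
          rw [Set.union_compl_self]
      _ ≤ P {ω | (LIS (walk X ω) n : ℝ) ≤ Real.sqrt n * Real.log n ^ a} +
          P {ω | (LIS (walk X ω) n : ℝ) ≤ Real.sqrt n * Real.log n ^ a}ᶜ :=
          measure_union_le _ _
      _ ≤ _ := by gcongr
  · exact Eventually.of_forall fun n => prob_le_one

end Pool.Agent.Results.MP_05a99f_pr.LisBound
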